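import Pool.Agent.Helper62.PM.St5

/-!
Project PM, module PC: the operator `Lop` of the flattened function, exact values.
-/

set_option autoImplicit false

open MeasureTheory Metric Set Filter Topology
open scoped RealInnerProductSpace ContDiff

namespace Pool.Agent.Helper15.PM

open Pool.Agent.Helper62.PM
open Pool.Agent.Helper62.Mink

private theorem cont_rp {n : ℕ} (e v w : E n) : Continuous fun t : ℝ => rp e v t w := by
  unfold rp
  fun_prop

theorem hPC : StA → StPC := by
  intro hA n e v σ F φ q ε hON hσ hF hφ hq hε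
  obtain ⟨hrot, hgrp, h0, hexp⟩ := hA n e v hON
  have hnorm : ∀ (t : ℝ) (w : E n), ‖rp e v t w‖ = ‖w‖ := by
    intro t w
    obtain ⟨θ, _, hθ⟩ := hrot t
    rw [← hθ w, LinearIsometryEquiv.norm_map]
  have he : ‖e‖ = 1 := hON.1
  have ha : ‖σ • e‖ = 1 := by
    rw [norm_smul, he, mul_one, Real.norm_eq_abs]
    rcases hσ with rfl | rfl <;> simp
  have hval : ∀ (c : ℝ) (x : E n), ‖x‖ = 1 → fc F φ (σ • e) q ε c x =
      inner ℝ (q + (ε + c) • (σ • e)) x +
        (c / 2 * F ((φ x + ε - inner ℝ (q + (ε + c) • (σ • e)) x) / (c / 2))) := by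
    intro c x hx
    unfold fc flat
    simp only [hx, mul_one, one_mul]
  have hip : ∀ (c : ℝ) (x : E n), (inner ℝ (q + (ε + c) • (σ • e)) x : ℝ) =
      inner ℝ q x + (ε + c) * inner ℝ (σ • e) x := by
    intro c x
    rw [inner_add_left, real_inner_smul_left]
  refine ⟨?_, ?_⟩
  · intro w hw hne
    have hlt : (inner ℝ (σ • e) w : ℝ) < 1 :=
      (inner_lt_one_iff_real_of_norm_eq_one ha hw).2 (Ne.symm hne)
    have hpos := mul_pos hε (sub_pos.2 hlt)
    refine ⟨ε * (1 - inner ℝ (σ • e) w) / 2, by linarith, ?_⟩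
    intro c hc hc0
    have hcont : Continuous fun t : ℝ => ε * (1 - (inner ℝ (σ • e) (rp e v t w) : ℝ)) :=
      continuous_const.mul (continuous_const.sub (continuous_const.inner (cont_rp e v w)))
    have h2 : 3 / 2 * c < ε * (1 - (inner ℝ (σ • e) (rp e v 0 w) : ℝ)) := by
      rw [h0]
      linarith
    have hev : ∀ᶠ t in 𝓝 (0 : ℝ), 3 / 2 * c < ε * (1 - (inner ℝ (σ • e) (rp e v t w) : ℝ)) :=
      hcont.continuousAt.eventually (lt_mem_nhds h2)
    have heq : (fun t => fc F φ (σ • e) q ε c (rp e v t w)) =ᶠ[𝓝 (0 : ℝ)]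
        fun t => φ (rp e v t w) + ε := by
      filter_upwards [hev] with t ht
      have hx : ‖rp e v t w‖ = 1 := by rw [hnorm, hw]
      have h1 : (inner ℝ (σ • e) (rp e v t w) : ℝ) ≤ 1 := by
        have h5 := real_inner_le_norm (σ • e) (rp e v t w)
        rw [ha, hx, mul_one] at h5
        exact h5
      have h3 := hq.le (rp e v t w)
      have hc2 : (0 : ℝ) < c / 2 := by linarith
      rw [hval c _ hx, hF.id]
      · field_simp
        ring
      · rw [hip, le_div_iff₀ hc2]
        nlinarith
    have h3 := heq.deriv.deriv_eq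
    have h4 := heq.eq_of_nhds
    have h5 : (deriv fun t => φ (rp e v t w) + ε) = deriv fun t => φ (rp e v t w) := by
      funext t
      simp
    rw [h5] at h3
    simp only [h0] at h4
    unfold Lop
    rw [h3, h4]
    ring
  · intro c hc
    have hc2 : (0 : ℝ) < c / 2 := by linarith
    have hx : ∀ t : ℝ, rp e v t (σ • e) = σ • (Real.cos t • e + Real.sin t • v) := by
      intro t
      obtain ⟨θ, _, hθ⟩ := hrot t
      rw [← hθ, map_smul, hθ, hexp]
    have hunit : ∀ t : ℝ, ‖rp e v t (σ • e)‖ = 1 := fun t => by rw [hnorm, ha]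
    have hφc : Continuous fun t : ℝ => φ (rp e v t (σ • e)) := by
      refine ContinuousOn.comp_continuous hφ.smooth.continuousOn (cont_rp e v (σ • e)) ?_
      intro t ht
      have h1 : rp e v t (σ • e) = 0 := ht
      have h2 := hunit t
      rw [h1, norm_zero] at h2
      exact zero_ne_one h2
    have hScont : Continuous fun t : ℝ => φ (rp e v t (σ • e)) + ε -
        (inner ℝ (q + (ε + c) • (σ • e)) (rp e v t (σ • e)) : ℝ) :=
      (hφc.add continuous_const).sub (continuous_const.inner (cont_rp e v (σ • e)))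
    have hS0 : φ (rp e v 0 (σ • e)) + ε -
        (inner ℝ (q + (ε + c) • (σ • e)) (rp e v 0 (σ • e)) : ℝ) < -(c / 2) := by
      rw [h0, hip, hq.eq, real_inner_self_eq_norm_sq, ha]
      linarith
    have hev : ∀ᶠ t in 𝓝 (0 : ℝ), φ (rp e v t (σ • e)) + ε -
        (inner ℝ (q + (ε + c) • (σ • e)) (rp e v t (σ • e)) : ℝ) < -(c / 2) :=
      hScont.continuousAt.eventually (gt_mem_nhds hS0)
    set A : ℝ := inner ℝ (q + (ε + c) • (σ • e)) (σ • e) with hAdef
    set B : ℝ := inner ℝ (q + (ε + c) • (σ • e)) (σ • v) with hBdef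
    have heq : (fun t => fc F φ (σ • e) q ε c (rp e v t (σ • e))) =ᶠ[𝓝 (0 : ℝ)]
        fun t => A * Real.cos t + B * Real.sin t := by
      filter_upwards [hev] with t ht
      have hz : (φ (rp e v t (σ • e)) + ε -
          (inner ℝ (q + (ε + c) • (σ • e)) (rp e v t (σ • e)) : ℝ)) / (c / 2) ≤ -1 := by
        rw [div_le_iff₀ hc2]
        linarith
      rw [hval c _ (hunit t), hF.zero _ hz, mul_zero, add_zero, hx t]
      have h1 : σ • (Real.cos t • e + Real.sin t • v) =
          Real.cos t • (σ • e) + Real.sin t • (σ • v) := by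
        rw [smul_add, smul_comm σ (Real.cos t) e, smul_comm σ (Real.sin t) v]
      rw [h1, inner_add_right, real_inner_smul_right _ (σ • e) (Real.cos t),
        real_inner_smul_right _ (σ • v) (Real.sin t)]
      ring
    have h3 := heq.deriv.deriv_eq
    have h4 := heq.eq_of_nhds
    have d1 : (deriv fun t : ℝ => A * Real.cos t + B * Real.sin t) =
        fun t => A * -Real.sin t + B * Real.cos t := by
      funext t
      exact (((Real.hasDerivAt_cos t).const_mul A).add
        ((Real.hasDerivAt_sin t).const_mul B)).deriv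
    have d2 : deriv (fun t : ℝ => A * -Real.sin t + B * Real.cos t) 0 = -A := by
      have h6 := (((Real.hasDerivAt_sin 0).neg.const_mul A).add
        ((Real.hasDerivAt_cos 0).const_mul B)).deriv
      have h7 : A * -Real.cos 0 + B * -Real.sin 0 = -A := by
        rw [Real.cos_zero, Real.sin_zero]
        ring
      rw [h7] at h6
      exact h6
    rw [d1, d2] at h3
    simp only [h0, Real.cos_zero, Real.sin_zero, mul_one, mul_zero, add_zero] at h4
    unfold Lop
    rw [h3, h4]
    ring

end Pool.Agent.Helper15.PM
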